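import Mathlib

namespace Pool.Agent.Results.MP_fe8c84_an.Unique

open Set Filter Topology

/-- `p` lies in the Frechet superdifferential of `f` at `x` -/
def Super (f : ℝ × ℝ → ℝ) (x p : ℝ × ℝ) : Prop :=
  ∀ ε > 0, ∀ᶠ y in 𝓝 x, f y - f x - (p.1 * (y.1 - x.1) + p.2 * (y.2 - x.2)) ≤ ε * ‖y - x‖

/-- `p` lies in the Frechet subdifferential of `f` at `x` -/
def Sub (f : ℝ × ℝ → ℝ) (x p : ℝ × ℝ) : Prop :=
  ∀ ε > 0, ∀ᶠ y in 𝓝 x, -(ε * ‖y - x‖) ≤ f y - f x - (p.1 * (y.1 - x.1) + p.2 * (y.2 - x.2))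

/-- viscosity solution of the mass equation, `x = (t, ρ)` -/
def IsSol (α : ℝ) (m₀ : ℝ → ℝ) (m : ℝ × ℝ → ℝ) : Prop :=
  ContinuousOn m (Ici 0 ×ˢ Ici 0) ∧
  (∀ x p : ℝ × ℝ, 0 < x.1 → 0 < x.2 → Super m x p → p.1 + max p.2 0 ^ α * m x ≤ 0) ∧
  (∀ x p : ℝ × ℝ, 0 < x.1 → 0 < x.2 → Sub m x p → 0 ≤ p.1 + max p.2 0 ^ α * m x) ∧
  (∀ ρ, 0 ≤ ρ → m (0, ρ) = m₀ ρ) ∧ ∀ t, 0 ≤ t → m (t, 0) = 0

theorem test {f g : ℝ × ℝ → ℝ} {x : ℝ × ℝ} {L : ℝ × ℝ →L[ℝ] ℝ} (hg : HasFDerivAt g L x)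
    (h : ∀ᶠ y in 𝓝 x, f y - g y ≤ f x - g x) : Super f x (L (1, 0), L (0, 1)) := by
  intro ε hε
  filter_upwards [h, hg.isLittleO.bound hε] with y h1 h2
  have : L (y - x) = L (1, 0) * (y.1 - x.1) + L (0, 1) * (y.2 - x.2) := by
    rw [mul_comm, mul_comm (L _), ← smul_eq_mul, ← smul_eq_mul, ← map_smul, ← map_smul, ← map_add]
    congr 1
    ext <;> simp
  linarith [le_abs_self (g y - g x - L (y - x)), Real.norm_eq_abs (g y - g x - L (y - x))]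

theorem neg {f : ℝ × ℝ → ℝ} {x p : ℝ × ℝ} (h : Super (fun y => -f y) x p) : Sub f x (-p) := by
  intro ε hε
  filter_upwards [h ε hε] with y hy
  simp only [Prod.fst_neg, Prod.snd_neg]
  linarith

theorem compare (α : ℝ) (hα : 0 < α) (u v : ℝ × ℝ → ℝ) (cu : ContinuousOn u (Ici 0 ×ˢ Ici 0))
    (cv : ContinuousOn v (Ici 0 ×ˢ Ici 0)) (u0 : ∀ x ∈ Ici 0 ×ˢ Ici 0, 0 ≤ u x)
    (hu : ∀ x p : ℝ × ℝ, 0 < x.1 → 0 < x.2 → Super u x p → p.1 + max p.2 0 ^ α * u x ≤ 0)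
    (hv : ∀ x p : ℝ × ℝ, 0 < x.1 → 0 < x.2 → Sub v x p → 0 ≤ p.1 + max p.2 0 ^ α * v x)
    (hb : ∀ x ∈ Ici 0 ×ˢ Ici 0, x.1 = 0 ∨ x.2 = 0 → u x ≤ v x) :
    ∀ x ∈ Ici 0 ×ˢ Ici 0, u x ≤ v x := by
  rintro z ⟨z1 : 0 ≤ z.1, z2 : 0 ≤ z.2⟩
  by_contra! hz
  obtain ⟨θ, hθ⟩ : ∃ θ, θ = (u z - v z) / 2 := ⟨_, rfl⟩
  have θ0 : 0 < θ := by linarith
  obtain ⟨T, hT⟩ : ∃ T, T = z.1 + z.2 + 2 := ⟨_, rfl⟩
  obtain ⟨Q, hQ⟩ : ∃ Q : Set (ℝ × ℝ), Q = Icc 0 T ×ˢ Icc 0 T := ⟨_, rfl⟩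
  have mQ : ∀ x, x ∈ Q ↔ (0 ≤ x.1 ∧ x.1 ≤ T) ∧ 0 ≤ x.2 ∧ x.2 ≤ T := fun x => by rw [hQ]; rfl
  have cQ : IsCompact Q := hQ ▸ isCompact_Icc.prod isCompact_Icc
  have sQ : Q ⊆ Ici 0 ×ˢ Ici 0 := fun x hx => ⟨((mQ x).1 hx).1.1, ((mQ x).1 hx).2.1⟩
  have zQ : z ∈ Q := (mQ z).2 ⟨⟨z1, by linarith⟩, z2, by linarith⟩
  obtain ⟨A, hA⟩ := cQ.exists_bound_of_continuousOn (cu.mono sQ)
  obtain ⟨B, hB⟩ := cQ.exists_bound_of_continuousOn (cv.mono sQ)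
  simp only [Real.norm_eq_abs, abs_le] at hA hB
  obtain ⟨a, a0, ha⟩ := Metric.uniformContinuousOn_iff.1
    (cQ.uniformContinuousOn_of_continuous (cu.mono sQ)) θ θ0
  obtain ⟨b, b0, hb'⟩ := Metric.uniformContinuousOn_iff.1
    (cQ.uniformContinuousOn_of_continuous (cv.mono sQ)) θ θ0
  obtain ⟨r, r0, ra, rb, r1⟩ : ∃ r > 0, r ≤ a ∧ r ≤ b ∧ r ≤ 1 :=
    ⟨min a (min b 1), by positivity, min_le_left _ _, (min_le_right _ _).trans (min_le_left _ _),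
      (min_le_right _ _).trans (min_le_right _ _)⟩
  have AB : 0 < A + B := by linarith [hA z zQ, hB z zQ]
  obtain ⟨K, hK⟩ : ∃ K, K = (A + B) / r ^ 2 := ⟨_, rfl⟩
  obtain ⟨k, hk⟩ : ∃ k, k = (A + B) / θ := ⟨_, rfl⟩
  have K0 : 0 < K := by rw [hK]; positivity
  have k0 : 0 < k := by rw [hk]; positivity
  obtain ⟨⟨x, y⟩, ⟨hx, hy⟩, hm⟩ := (cQ.prod cQ).exists_isMaxOn (f := fun w => u w.1 - v w.2 -
    K * ((w.1.1 - w.2.1) ^ 2 + (w.1.2 - w.2.2) ^ 2) -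
      θ * Real.exp (k * (w.1.1 + w.1.2 - z.1 - z.2))) ⟨(z, z), zQ, zQ⟩
    (((((cu.mono sQ).comp continuousOn_fst fun _ h => h.1).sub
      ((cv.mono sQ).comp continuousOn_snd fun _ h => h.2)).sub (by fun_prop)).sub (by fun_prop))
  simp only at hx hy
  have m0 := hm (show (z, z) ∈ Q ×ˢ Q from ⟨zQ, zQ⟩)
  simp only [mem_ofPred_eq, sub_self, add_sub_cancel_left, mul_zero, Real.exp_zero] at m0
  obtain ⟨E, hE⟩ : ∃ E, E = Real.exp (k * (x.1 + x.2 - z.1 - z.2)) := ⟨_, rfl⟩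
  rw [← hE] at m0
  have E0 : 0 < θ * E := by rw [hE]; positivity
  have s1 := mul_nonneg K0.le (sq_nonneg (x.1 - y.1))
  have s2 := mul_nonneg K0.le (sq_nonneg (x.2 - y.2))
  have hA := hA x hx
  have hB := hB y hy
  have close : ∀ d : ℝ, K * d ^ 2 < A + B → |d| < r := fun d h => by
    rw [hK, div_mul_eq_mul_div, div_lt_iff₀ (by positivity)] at h
    exact abs_lt_of_sq_lt_sq (lt_of_mul_lt_mul_left h AB.le) r0.le
  have c1 := close (x.1 - y.1) (by linarith)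
  have c2 := close (x.2 - y.2) (by linarith)
  have dxy : dist x y < r := max_lt c1 c2
  have ha := abs_lt.1 (ha x hx y hy (dxy.trans_le ra))
  have hb' := abs_lt.1 (hb' x hx y hy (dxy.trans_le rb))
  have bx : ¬(x.1 = 0 ∨ x.2 = 0) := fun h => by linarith [hb x (sQ hx) h]
  have by' : ¬(y.1 = 0 ∨ y.2 = 0) := fun h => by linarith [hb y (sQ hy) h]
  have out : x.1 + x.2 < T - 1 := by
    by_contra! h
    have : k + 1 ≤ E := by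
      rw [hE]
      refine le_trans ?_ (Real.add_one_le_exp _)
      nlinarith
    have e : θ * k = A + B := by rw [hk]; field_simp
    nlinarith
  push Not at bx by'
  rw [mQ] at hx hy
  rw [abs_lt] at c1 c2
  have x1 := hx.1.1.lt_of_ne' bx.1
  have x2 := hx.2.1.lt_of_ne' bx.2
  have y1 := hy.1.1.lt_of_ne' by'.1
  have y2 := hy.2.1.lt_of_ne' by'.2
  have nb : ∀ w : ℝ × ℝ, 0 < w.1 → w.1 < T → 0 < w.2 → w.2 < T → Q ∈ 𝓝 w := fun w a b c d =>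
    hQ ▸ prod_mem_nhds (Icc_mem_nhds a b) (Icc_mem_nhds c d)
  have f1 : ∀ w : ℝ × ℝ, HasFDerivAt Prod.fst _ w := fun w => hasFDerivAt_fst (𝕜 := ℝ)
  have f2 : ∀ w : ℝ × ℝ, HasFDerivAt Prod.snd _ w := fun w => hasFDerivAt_snd (𝕜 := ℝ)
  have t1 := hu x _ x1 x2 (test ((((((f1 x).sub_const y.1).pow 2).add
    (((f2 x).sub_const y.2).pow 2)).const_mul K).add ((((((f1 x).add (f2 x)).sub_const z.1).sub_const
      z.2).const_mul k).exp.const_mul θ)) (by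
    filter_upwards [nb x x1 (by linarith) x2 (by linarith)] with w hw
    have := hm (show (w, y) ∈ Q ×ˢ Q from ⟨hw, (mQ y).2 hy⟩)
    simp only [mem_ofPred_eq, Pi.add_apply] at this ⊢
    linarith))
  have t2 := hv y _ y1 y2 (neg (test ((((((f1 y).const_sub x.1).pow 2).add
    (((f2 y).const_sub x.2).pow 2)).const_mul K)) (by
    filter_upwards [nb y y1 (by linarith) y2 (by linarith)] with w hw
    have := hm (show (x, w) ∈ Q ×ˢ Q from ⟨(mQ x).2 hx, hw⟩)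
    simp only [mem_ofPred_eq, Pi.add_apply] at this ⊢
    linarith)))
  simp at t1 t2
  rw [← hE] at t1
  have e0 : 0 < θ * (E * k) := by rw [← mul_assoc]; positivity
  have m1 : max (K * (2 * (x.2 - y.2))) 0 ^ α ≤ max (K * (2 * (x.2 - y.2)) + θ * (E * k)) 0 ^ α :=
    Real.rpow_le_rpow (le_max_right _ _) (max_le_max_right _ (by linarith)) hα.le
  have m2 := mul_le_mul_of_nonneg_right m1 (u0 x ⟨x1.le, x2.le⟩)
  have m3 := mul_le_mul_of_nonneg_left (show v y ≤ u x by linarith)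
    (Real.rpow_nonneg (le_max_right (K * (2 * (x.2 - y.2))) 0) α)
  linarith

theorem result (α : ℝ) (h0 : 0 < α) (_h1 : α < 1) (m₀ : ℝ → ℝ) (_hc : ContinuousOn m₀ (Ici 0))
    (_hm : MonotoneOn m₀ (Ici 0)) (_hz : m₀ 0 = 0) (hn : ∀ ρ, 0 ≤ ρ → 0 ≤ m₀ ρ)
    (m M : ℝ × ℝ → ℝ) (hm : IsSol α m₀ m) (hM : IsSol α m₀ M) : EqOn m M (Ici 0 ×ˢ Ici 0) := by
  have pos : ∀ m, IsSol α m₀ m → ∀ x ∈ Ici 0 ×ˢ Ici 0, 0 ≤ m x := fun m ⟨a, _, c, d, e⟩ => by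
    refine compare α h0 0 m continuousOn_const a (fun _ _ => le_rfl) (fun x p _ _ h => ?_) c ?_
    · simp only [Pi.zero_apply, mul_zero, add_zero]
      refine le_of_forall_pos_le_add fun ε hε => ?_
      have t : Tendsto (fun τ : ℝ => (x.1 - τ, x.2)) (𝓝[>] 0) (𝓝 x) :=
        (Continuous.tendsto' (by fun_prop) _ _ (by simp)).mono_left nhdsWithin_le_nhds
      obtain ⟨τ, h1, h2 : 0 < τ⟩ := ((t.eventually (h ε hε)).and self_mem_nhdsWithin).exists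
      simp [Prod.norm_def, abs_of_pos h2, h2.le] at h1
      nlinarith
    · rintro ⟨t, ρ⟩ ⟨h1, h2⟩ (rfl | rfl)
      exacts [(hn ρ h2).trans (d ρ h2).ge, (e t h1).ge]
  have le : ∀ m M, IsSol α m₀ m → IsSol α m₀ M → ∀ x ∈ Ici 0 ×ˢ Ici 0, m x ≤ M x :=
    fun m M hm hM => compare α h0 m M hm.1 hM.1 (pos m hm) hm.2.1 hM.2.2.1 (by
      rintro ⟨t, ρ⟩ ⟨h1, h2⟩ (rfl | rfl)
      exacts [((hm.2.2.2.1 ρ h2).trans (hM.2.2.2.1 ρ h2).symm).le,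
        ((hm.2.2.2.2 t h1).trans (hM.2.2.2.2 t h1).symm).le])
  exact fun x hx => (le m M hm hM x hx).antisymm (le M m hM hm x hx)

end Pool.Agent.Results.MP_fe8c84_an.Unique
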